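import Pool.Agent.H31.CN.T4

/-!
# The mollified value of the principal form up to a negligible error
-/

set_option autoImplicit false

open MeasureTheory Set Filter
open scoped Real

namespace Pool.Agent.H51.CN

open Pool.Agent.H31.CN

/-! ### Numbers of roots -/

/-- the roots in the ring of residues -/
def RT (q : ℕ) (A B C : ℤ) : Type :=
  {x : ZMod q // (A : ZMod q) * x ^ 2 + (B : ZMod q) * x + (C : ZMod q) = 0}

theorem nrt_eq (q : ℕ) (hq : q ≠ 0) (A B C : ℤ) : nrt q A B C = Nat.card (RT q A B C) := by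
  have : NeZero q := ⟨hq⟩
  unfold nrt
  rw [← Nat.card_eq_finsetCard]
  have key : ∀ j : ℕ, (q : ℤ) ∣ A * (j : ℤ) ^ 2 + B * (j : ℤ) + C ↔
      (A : ZMod q) * (j : ZMod q) ^ 2 + (B : ZMod q) * (j : ZMod q) + (C : ZMod q) = 0 := by
    intro j
    rw [← ZMod.intCast_zmod_eq_zero_iff_dvd]
    push_cast
    rfl
  refine Nat.card_congr
    { toFun := fun j => ⟨((j : ℕ) : ZMod q), (key _).1 (Finset.mem_filter.1 j.2).2⟩
      invFun := fun x => ⟨x.1.val, Finset.mem_filter.2 ⟨Finset.mem_range.2 (ZMod.val_lt _),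
        (key _).2 (by rw [ZMod.natCast_zmod_val]; exact x.2)⟩⟩
      left_inv := fun j => ?_
      right_inv := fun x => ?_ }
  · refine Subtype.ext ?_
    exact ZMod.val_cast_of_lt (Finset.mem_range.1 (Finset.mem_filter.1 j.2).1)
  · exact Subtype.ext (ZMod.natCast_zmod_val _)

theorem nrt_mul (a b : ℕ) (ha : a ≠ 0) (hb : b ≠ 0) (hab : a.Coprime b) (A B C : ℤ) :
    nrt (a * b) A B C = nrt a A B C * nrt b A B C := by
  rw [nrt_eq _ (mul_ne_zero ha hb), nrt_eq a ha, nrt_eq b hb, ← Nat.card_prod]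
  let e := ZMod.chineseRemainder hab
  refine Nat.card_congr ((e.toEquiv.subtypeEquiv (q := fun y : ZMod a × ZMod b =>
    ((A : ZMod a) * y.1 ^ 2 + (B : ZMod a) * y.1 + (C : ZMod a) = 0) ∧
      ((A : ZMod b) * y.2 ^ 2 + (B : ZMod b) * y.2 + (C : ZMod b) = 0)) fun x => ?_).trans
    (Equiv.subtypeProdEquivProd (p := fun x : ZMod a =>
      (A : ZMod a) * x ^ 2 + (B : ZMod a) * x + (C : ZMod a) = 0)
      (q := fun x : ZMod b => (A : ZMod b) * x ^ 2 + (B : ZMod b) * x + (C : ZMod b) = 0)))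
  rw [← (map_eq_zero_iff e e.injective)]
  rw [map_add, map_add, map_mul, map_mul, map_pow, map_intCast, map_intCast, map_intCast]
  rw [Prod.ext_iff]
  rfl

theorem nrt_one (A B C : ℤ) : nrt 1 A B C = 1 := by
  simp [nrt]

theorem nrt_prod (s : Finset ℕ) (hs : ∀ p ∈ s, p.Prime) (A B C : ℤ) :
    nrt (∏ p ∈ s, p) A B C = ∏ p ∈ s, nrt p A B C := by
  induction s using Finset.induction_on with
  | empty => simp [nrt_one]
  | insert p s hp ih =>
    rw [Finset.prod_insert hp, Finset.prod_insert hp, nrt_mul, ih fun q hq =>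
      hs q (Finset.mem_insert_of_mem hq)]
    · exact (hs p (Finset.mem_insert_self _ _)).ne_zero
    · exact Finset.prod_ne_zero_iff.2 fun q hq => (hs q (Finset.mem_insert_of_mem hq)).ne_zero
    · refine Nat.Coprime.prod_right fun q hq => ?_
      rw [Nat.coprime_primes (hs p (Finset.mem_insert_self _ _))
        (hs q (Finset.mem_insert_of_mem hq))]
      rintro rfl
      exact hp hq

theorem nrt_sf (m : ℕ) (hm : Squarefree m) (A B C : ℤ) :
    nrt m A B C = ∏ p ∈ m.primeFactors, nrt p A B C := by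
  conv_lhs => rw [← Nat.prod_primeFactors_of_squarefree hm]
  exact nrt_prod _ (fun p hp => Nat.prime_of_mem_primeFactors hp) A B C

theorem nrt_chi (p : ℕ) (hp : p.Prime) (c : ℤ) :
    (nrt p 1 1 c : ℝ) = 1 + (chi p (4 * c - 1) : ℝ) := by
  unfold chi
  by_cases h2 : p = 2
  · rw [if_pos h2, h2]
    have h3 : nrt 2 1 1 c = if (2 : ℤ) ∣ c then 2 else 0 := by
      unfold nrt
      rw [Finset.card_filter, Finset.sum_range_succ, Finset.sum_range_one]
      push_cast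
      by_cases h4 : (2 : ℤ) ∣ c
      · rw [if_pos (by omega), if_pos (by omega), if_pos h4]
      · rw [if_neg (by omega), if_neg (by omega), if_neg h4]
    rw [h3]
    by_cases h4 : (2 : ℤ) ∣ c
    · rw [if_pos h4, if_pos (by omega)]
      norm_num
    · rw [if_neg h4, if_neg (by omega)]
      norm_num
  · rw [if_neg h2]
    have : Fact p.Prime := ⟨hp⟩
    have hp2 : (2 : ZMod p) ≠ 0 := by
      intro h
      have h5 : ((2 : ℕ) : ZMod p) = 0 := by exact_mod_cast h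
      rw [ZMod.natCast_eq_zero_iff] at h5
      exact h2 ((Nat.prime_dvd_prime_iff_eq hp Nat.prime_two).1 h5)
    have h3 : nrt p 1 1 c = nrt p 1 0 (4 * c - 1) := by
      rw [nrt_eq p hp.ne_zero, nrt_eq p hp.ne_zero]
      refine Nat.card_congr
        { toFun := fun x => ⟨2 * x.1 + 1, ?_⟩
          invFun := fun y => ⟨(y.1 - 1) / 2, ?_⟩
          left_inv := fun x => ?_
          right_inv := fun y => ?_ }
      · have := x.2
        push_cast at this ⊢
        linear_combination 4 * this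
      · have := y.2
        push_cast at this ⊢
        field_simp
        linear_combination this
      · refine Subtype.ext ?_
        simp only
        field_simp
        ring
      · refine Subtype.ext ?_
        simp only
        field_simp
        ring
    rw [h3]
    push_cast
    ring

/-! ### The arrangement of the terms -/

theorem cm_zero (P : Polynomial ℝ) (M : ℝ) (N m : ℕ) (h : ¬ (Squarefree m ∧ m.Coprime N)) :
    cm P M N m = 0 := by
  unfold cm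
  by_cases h1 : (m : ℝ) ≤ M ∧ Nat.Coprime m N
  · rw [if_pos h1]
    have h2 : ¬ Squarefree m := fun h3 => h ⟨h3, h1.2⟩
    unfold mr
    rw [ArithmeticFunction.moebius_eq_zero_of_not_squarefree h2]
    simp
  · rw [if_neg h1]

theorem rearr (P : Polynomial ℝ) (M : ℝ) (N : ℕ) (Δ : ℤ) (hN : Squarefree N) (g : ℕ → ℝ) :
    ∑ m ∈ SD M N, CD P M N Δ m * g m =
      ∑ m ∈ Finset.Icc 1 ⌊M⌋₊, ∑ n ∈ N.divisors, an N n Δ * cm P M N m * g (n * m) := by
  classical
  have hN0 : N ≠ 0 := hN.ne_zero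
  have h1 : ∑ m ∈ Finset.Icc 1 ⌊M⌋₊, ∑ n ∈ N.divisors, an N n Δ * cm P M N m * g (n * m) =
      ∑ m ∈ (Finset.Icc 1 ⌊M⌋₊).filter (fun m => Squarefree m ∧ m.Coprime N),
        ∑ n ∈ N.divisors, an N n Δ * cm P M N m * g (n * m) := by
    symm
    refine Finset.sum_subset (Finset.filter_subset _ _) fun m hm hm' => ?_
    refine Finset.sum_eq_zero fun n _ => ?_
    rw [cm_zero P M N m, mul_zero, zero_mul]
    intro h
    exact hm' (Finset.mem_filter.2 ⟨hm, h⟩)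
  rw [h1, ← Finset.sum_product']
  refine Finset.sum_nbij' (fun m => (m / Nat.gcd m N, Nat.gcd m N)) (fun x => x.2 * x.1)
    ?_ ?_ ?_ ?_ ?_
  · intro m hm
    rw [SD, Finset.mem_filter, Finset.mem_Icc] at hm
    obtain ⟨⟨h2, _⟩, h3, h4⟩ := hm
    have h5 : Nat.gcd m N ∣ m := Nat.gcd_dvd_left _ _
    have h6 : 0 < Nat.gcd m N := Nat.gcd_pos_of_pos_left _ h2
    rw [Finset.mem_product, Finset.mem_filter, Finset.mem_Icc, Nat.mem_divisors]
    refine ⟨⟨⟨Nat.div_pos (Nat.le_of_dvd h2 h5) h6, Nat.le_floor h4⟩,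
      h3.squarefree_of_dvd (Nat.div_dvd_of_dvd h5), ?_⟩, Nat.gcd_dvd_right _ _, hN0⟩
    exact Nat.coprime_div_gcd_of_squarefree h3 hN0
  · rintro ⟨m, n⟩ hx
    rw [Finset.mem_product, Finset.mem_filter, Finset.mem_Icc, Nat.mem_divisors] at hx
    obtain ⟨⟨⟨h2, h3⟩, h4, h5⟩, h6, _⟩ := hx
    simp only at h2 h3 h4 h5 h6
    have h7 : 0 < n := Nat.pos_of_dvd_of_pos h6 (Nat.pos_of_ne_zero hN0)
    have hg : Nat.gcd (n * m) N = n := by
      rw [Nat.Coprime.gcd_mul_right_cancel n h5]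
      exact Nat.gcd_eq_left h6
    rw [SD, Finset.mem_filter, Finset.mem_Icc]
    simp only
    refine ⟨⟨Nat.mul_pos h7 h2, Nat.mul_le_mul (Nat.le_of_dvd (Nat.pos_of_ne_zero hN0) h6) h3⟩,
      ?_, ?_⟩
    · rw [Nat.squarefree_mul (h5.symm.coprime_dvd_left h6)]
      exact ⟨hN.squarefree_of_dvd h6, h4⟩
    · rw [hg, Nat.mul_div_cancel_left _ h7]
      exact (Nat.le_floor_iff' (by omega)).1 h3
  · intro m _
    exact Nat.mul_div_cancel' (Nat.gcd_dvd_left m N)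
  · rintro ⟨m, n⟩ hx
    rw [Finset.mem_product, Finset.mem_filter, Finset.mem_Icc, Nat.mem_divisors] at hx
    obtain ⟨⟨⟨h2, h3⟩, h4, h5⟩, h6, _⟩ := hx
    simp only at h2 h3 h4 h5 h6
    have h7 : 0 < n := Nat.pos_of_dvd_of_pos h6 (Nat.pos_of_ne_zero hN0)
    have hg : Nat.gcd (n * m) N = n := by
      rw [Nat.Coprime.gcd_mul_right_cancel n h5]
      exact Nat.gcd_eq_left h6
    simp only [hg, Nat.mul_div_cancel_left _ h7]
  · intro m _
    simp only [CD, Nat.mul_div_cancel' (Nat.gcd_dvd_left m N)]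

theorem an_prod (N n : ℕ) (hN : Squarefree N) (hn : n ∣ N) (Δ : ℤ) :
    an N n Δ * ((1 / (n : ℝ)) * ∏ p ∈ n.primeFactors, (1 + (chi p Δ : ℝ))) =
      ∏ p ∈ N.primeFactors, if p ∣ n then -((1 + (chi p Δ : ℝ)) / p) else
        1 + (chi p Δ : ℝ) / p := by
  have hN0 : N ≠ 0 := hN.ne_zero
  have hn1 : (n : ℝ) = ∏ p ∈ n.primeFactors, (p : ℝ) := by
    rw [← Nat.cast_prod, Nat.prod_primeFactors_of_squarefree (hN.squarefree_of_dvd hn)]
  have hn0 : n ≠ 0 := (Nat.pos_of_dvd_of_pos hn (Nat.pos_of_ne_zero hN0)).ne'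
  have h1 : (1 / (n : ℝ)) * ∏ p ∈ n.primeFactors, (1 + (chi p Δ : ℝ)) =
      ∏ p ∈ N.primeFactors, if p ∣ n then (1 + (chi p Δ : ℝ)) / p else 1 := by
    rw [hn1, one_div, ← Finset.prod_inv_distrib, ← Finset.prod_mul_distrib,
      ← Finset.prod_filter]
    refine Finset.prod_congr ?_ fun p _ => by rw [div_eq_inv_mul]
    ext p
    rw [Finset.mem_filter, Nat.mem_primeFactors, Nat.mem_primeFactors]
    constructor
    · rintro ⟨h2, h3, _⟩
      exact ⟨⟨h2, h3.trans hn, hN0⟩, h3⟩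
    · rintro ⟨⟨h2, _, _⟩, h3⟩
      exact ⟨h2, h3, hn0⟩
  rw [h1, an, ← Finset.prod_mul_distrib]
  refine Finset.prod_congr rfl fun p _ => ?_
  by_cases h : p ∣ n
  · rw [if_pos h, if_pos h, if_pos h]
    ring
  · rw [if_neg h, if_neg h, if_neg h, mul_one]

/-! ### The main term -/

theorem four_c (D : ℕ) (hD : D % 4 = 3) : 4 * (((D : ℤ) + 1) / 4) - 1 = (D : ℤ) := by omega

theorem main_alg (P : Polynomial ℝ) (M : ℝ) (N D : ℕ) (hN : Squarefree N) (hD : D % 4 = 3) :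
    ∑ m ∈ SD M N, CD P M N D m *
      (1 / Real.sqrt m * ((nrt m 1 1 (((D : ℤ) + 1) / 4) : ℝ) * ct m D)) =
      ∑ m ∈ Finset.Icc 1 ⌊M⌋₊, ∑ n ∈ N.divisors, cm P M N m / m *
          (∏ p ∈ m.primeFactors, (1 + (chi p D : ℝ))) *
          (∏ p ∈ N.primeFactors, if p ∣ n then -((1 + (chi p D : ℝ)) / p) else
            1 + (chi p D : ℝ) / p) *
          (Real.log (Real.sqrt D / (n * m)) + c0) := by
  have h0 := rearr P M N D hN
    (fun m => 1 / Real.sqrt m * ((nrt m 1 1 (((D : ℤ) + 1) / 4) : ℝ) * ct m D))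
  refine h0.trans ?_
  refine Finset.sum_congr rfl fun m hm => Finset.sum_congr rfl fun n hn => ?_
  by_cases h : Squarefree m ∧ m.Coprime N
  · obtain ⟨h1, h2⟩ := h
    have h3 : n ∣ N := (Nat.mem_divisors.1 hn).1
    have h4 : 0 < n := Nat.pos_of_dvd_of_pos h3 (Nat.pos_of_ne_zero hN.ne_zero)
    have h5 : n.Coprime m := (h2.symm).coprime_dvd_left h3
    have h6 : Squarefree (n * m) := (Nat.squarefree_mul h5).2 ⟨hN.squarefree_of_dvd h3, h1⟩
    have h7 : 0 < m := (Finset.mem_Icc.1 hm).1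
    rw [← an_prod N n hN h3 D]
    have h8 : (nrt (n * m) 1 1 (((D : ℤ) + 1) / 4) : ℝ) =
        (∏ p ∈ n.primeFactors, (1 + (chi p D : ℝ))) * ∏ p ∈ m.primeFactors, (1 + (chi p D : ℝ)) := by
      rw [nrt_sf _ h6, h5.primeFactors_mul, Finset.prod_union h5.disjoint_primeFactors]
      push_cast
      congr 1
      · refine Finset.prod_congr rfl fun p hp => ?_
        rw [nrt_chi p (Nat.prime_of_mem_primeFactors hp), four_c D hD]
      · refine Finset.prod_congr rfl fun p hp => ?_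
        rw [nrt_chi p (Nat.prime_of_mem_primeFactors hp), four_c D hD]
    rw [h8, ct]
    have h9 : (0 : ℝ) < ((n * m : ℕ) : ℝ) := by exact_mod_cast Nat.mul_pos h4 h7
    have h10 : Real.sqrt ((n * m : ℕ) : ℝ) * Real.sqrt ((n * m : ℕ) : ℝ) = (n : ℝ) * m := by
      rw [Real.mul_self_sqrt h9.le]
      push_cast
      rfl
    have h11 : 0 < Real.sqrt ((n * m : ℕ) : ℝ) := Real.sqrt_pos.2 h9
    have h12 : (0 : ℝ) < n := by exact_mod_cast h4
    have h13 : (0 : ℝ) < m := by exact_mod_cast h7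
    have h14 : ∀ x y : ℝ, 1 / Real.sqrt ((n * m : ℕ) : ℝ) * (x * (y / Real.sqrt ((n * m : ℕ) : ℝ))) =
        x * y / ((n : ℝ) * m) := by
      intro x y
      rw [← h10]
      field_simp
    rw [h14]
    push_cast
    field_simp
  · rw [cm_zero P M N m h]
    simp

/-! ### Bounds -/

theorem nrt_le (q : ℕ) (A B C : ℤ) : nrt q A B C ≤ q :=
  (Finset.card_filter_le _ _).trans (Finset.card_range q).le

theorem chi_le (p : ℕ) (hp : p.Prime) (Δ : ℤ) : |(chi p Δ : ℝ)| ≤ p := by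
  have h2 := hp.two_le
  unfold chi
  by_cases h : p = 2
  · rw [if_pos h, h]
    split_ifs <;> norm_num
  · rw [if_neg h]
    have h3 : (nrt p 1 0 Δ : ℝ) ≤ p := by exact_mod_cast nrt_le p 1 0 Δ
    have h4 : (0 : ℝ) ≤ (nrt p 1 0 Δ : ℝ) := Nat.cast_nonneg _
    have h5 : (2 : ℝ) ≤ p := by exact_mod_cast h2
    push_cast
    rw [abs_le]
    constructor <;> linarith

theorem cd_bd (P : Polynomial ℝ) (N : ℕ) : ∃ K : ℝ, 0 < K ∧ ∀ M : ℝ, 1 < M → ∀ Δ : ℤ,
    ∀ m ∈ SD M N, |CD P M N Δ m| ≤ K := by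
  obtain ⟨K, hK⟩ := (isCompact_Icc (a := (0 : ℝ)) (b := 1)).exists_bound_of_continuousOn
    (f := fun t => P.eval t) P.continuous.continuousOn
  refine ⟨(∏ _p ∈ N.primeFactors, (2 : ℝ)) * (|K| + 1), by positivity, fun M hM Δ m hm => ?_⟩
  rw [SD, Finset.mem_filter, Finset.mem_Icc] at hm
  obtain ⟨⟨h2, _⟩, h3, h4⟩ := hm
  have h5 : Nat.gcd m N ∣ m := Nat.gcd_dvd_left _ _
  have h6 : 0 < Nat.gcd m N := Nat.gcd_pos_of_pos_left _ h2
  have h7 : 0 < m / Nat.gcd m N := Nat.div_pos (Nat.le_of_dvd h2 h5) h6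
  rw [CD, abs_mul]
  refine mul_le_mul ?_ ?_ (abs_nonneg _) (by positivity)
  · rw [an, Finset.abs_prod]
    refine Finset.prod_le_prod (fun _ _ => abs_nonneg _) fun p hp => ?_
    have hp1 := Nat.prime_of_mem_primeFactors hp
    have hp0 : (0 : ℝ) < p := by exact_mod_cast hp1.pos
    split_ifs
    · norm_num
    · refine (abs_add_le _ _).trans ?_
      rw [abs_div, abs_one, abs_of_pos hp0]
      have := (div_le_one hp0).2 (chi_le p hp1 Δ)
      linarith
  · unfold cm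
    split_ifs
    · rw [abs_mul]
      have h8 : |mr (m / Nat.gcd m N)| ≤ 1 := by
        unfold mr
        exact_mod_cast ArithmeticFunction.abs_moebius_le_one
      have h9 : (1 : ℝ) ≤ ((m / Nat.gcd m N : ℕ) : ℝ) := by exact_mod_cast h7
      have h10 : (0 : ℝ) < ((m / Nat.gcd m N : ℕ) : ℝ) := by linarith
      have hlM : 0 < Real.log M := Real.log_pos hM
      have h11 : Real.log (M / ((m / Nat.gcd m N : ℕ) : ℝ)) / Real.log M ∈ Icc (0 : ℝ) 1 := by
        constructor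
        · refine div_nonneg (Real.log_nonneg ?_) hlM.le
          rw [le_div_iff₀ h10, one_mul]
          exact h4
        · rw [div_le_one hlM]
          refine Real.log_le_log (by positivity) (div_le_self (by linarith) h9)
      have h12 := hK _ h11
      rw [Real.norm_eq_abs] at h12
      calc _ ≤ 1 * |K| := mul_le_mul h8 (h12.trans (le_abs_self _)) (abs_nonneg _) (by norm_num)
        _ ≤ |K| + 1 := by linarith
    · rw [abs_zero]
      positivity

/-! ### The interchange -/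

theorem val_pos' (D : ℕ) (hD : D % 4 = 3) (v : ℤ × ℤ) (hv : v ≠ 0) :
    0 < val (1, 1, ((D : ℤ) + 1) / 4) v := by
  have h1 := four_c D hD
  have h2 : 4 * val (1, 1, ((D : ℤ) + 1) / 4) v = (2 * v.1 + v.2) ^ 2 + D * v.2 ^ 2 := by
    simp only [val]
    linear_combination (v.2 ^ 2) * h1
  have h3 : (0 : ℤ) < D := by omega
  have h4 : 0 < (2 * v.1 + v.2) ^ 2 + D * v.2 ^ 2 := by
    by_cases h5 : v.2 = 0
    · have h6 : v.1 ≠ 0 := fun h => hv (Prod.ext h h5)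
      rw [h5]
      have : 0 < v.1 ^ 2 := by positivity
      nlinarith
    · have : 0 < v.2 ^ 2 := by positivity
      nlinarith [sq_nonneg (2 * v.1 + v.2)]
  omega

theorem nu_le (m : ℕ) (Q : QF) : ∃ K : ℝ, 0 < K ∧ ∀ v, (nu m Q v : ℝ) ≤ K := by
  refine ⟨∏ p ∈ m.primeFactors, (1 + (prt p Q : ℝ)), by positivity, fun v => ?_⟩
  unfold nu
  push_cast
  refine Finset.prod_le_prod (fun _ _ => Nat.cast_nonneg _) fun p _ => ?_
  unfold nul
  split_ifs
  · linarith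
  · push_cast
    linarith [Nat.cast_nonneg (α := ℝ) (prt p Q)]
  · push_cast
    linarith [Nat.cast_nonneg (α := ℝ) (prt p Q)]

theorem mem_fd (D : ℕ) (hD : D % 4 = 3) : ((1, 1, ((D : ℤ) + 1) / 4) : QF) ∈ FD D := by
  refine ⟨by norm_num, ?_⟩
  simp only [dsc]
  have := four_c D hD
  linarith

theorem summ (hVK : T_VK) (hVGR : T_VGR) (D m : ℕ) (hD : D % 4 = 3) (hm : 0 < m) :
    Summable (fun v : ℤ × ℤ => Vk (val (1, 1, ((D : ℤ) + 1) / 4) v / (m * Real.sqrt D)) *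
        nu m (1, 1, ((D : ℤ) + 1) / 4) v / Real.sqrt (val (1, 1, ((D : ℤ) + 1) / 4) v)) := by
  obtain ⟨C, hC, h1, _⟩ := hVK
  obtain ⟨K, hK, h2⟩ := nu_le m (1, 1, ((D : ℤ) + 1) / 4)
  have hD0 : 0 < D := by omega
  have hD1 : (0 : ℝ) < D := by exact_mod_cast hD0
  have hm1 : (0 : ℝ) < m := by exact_mod_cast hm
  have hs : 0 < (m : ℝ) * Real.sqrt D := mul_pos hm1 (Real.sqrt_pos.2 hD1)
  obtain ⟨_, h3⟩ := hVGR D (6 / (m * Real.sqrt D)) hD0 (by positivity)
  have h4 := ((h3 _ (mem_fd D hD)).1.mul_left (C * K))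
  refine Summable.of_norm_bounded h4 fun v => ?_
  by_cases hv : v = 0
  · have h5 : val (1, 1, ((D : ℤ) + 1) / 4) v = 0 := by
      rw [hv]
      simp [val]
    rw [h5]
    simp only [Int.cast_zero, Real.sqrt_zero, div_zero, norm_zero]
    positivity
  · have h5 := val_pos' D hD v hv
    have h6 : (1 : ℝ) ≤ (val (1, 1, ((D : ℤ) + 1) / 4) v : ℝ) := by exact_mod_cast h5
    have h7 : 0 < (val (1, 1, ((D : ℤ) + 1) / 4) v : ℝ) / (m * Real.sqrt D) :=
      div_pos (by linarith) hs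
    have h8 := h1 _ h7
    have h9 : (1 : ℝ) ≤ Real.sqrt (val (1, 1, ((D : ℤ) + 1) / 4) v) := Real.one_le_sqrt.2 h6
    rw [Real.norm_eq_abs, abs_div, abs_mul, Nat.abs_cast, abs_of_nonneg (Real.sqrt_nonneg _)]
    refine (div_le_self (by positivity) h9).trans ?_
    calc _ ≤ (C * Real.exp (-(6 * ((val (1, 1, ((D : ℤ) + 1) / 4) v : ℝ) /
          (m * Real.sqrt D))))) * K := mul_le_mul h8 (h2 v) (Nat.cast_nonneg _) (by positivity)
      _ = C * K * Real.exp (-(6 / (m * Real.sqrt D) * (val (1, 1, ((D : ℤ) + 1) / 4) v : ℝ))) := by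
        rw [show 6 * ((val (1, 1, ((D : ℤ) + 1) / 4) v : ℝ) / (m * Real.sqrt D)) =
          6 / (m * Real.sqrt D) * (val (1, 1, ((D : ℤ) + 1) / 4) v : ℝ) by ring]
        ring

theorem zc_eq (hPZ1 : T_PZ1) (hVK : T_VK) (hVGR : T_VGR) (S : Finset ℕ) (c : ℕ → ℝ)
    (hS : ∀ m ∈ S, Squarefree m) (D : ℕ) (hD3 : 3 < D) (hD : D % 4 = 3) :
    Zc S c (1, 1, ((D : ℤ) + 1) / 4) = ∑ m ∈ S, c m * ((1 / Real.sqrt m) *
      ∑ j ∈ (Finset.range m).filter
        (fun j : ℕ => (m : ℤ) ∣ (j : ℤ) ^ 2 + j + ((D : ℤ) + 1) / 4), zf m (1 + 2 * j) D) := by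
  have h1 : ((dsc (1, 1, ((D : ℤ) + 1) / 4) : ℤ) : ℝ) = (D : ℝ) := by
    have := (mem_fd D hD).2
    rw [this]
    push_cast
    rfl
  have h2 : ∀ v : ℤ × ℤ, (∑ m ∈ S, c m * Vk (val (1, 1, ((D : ℤ) + 1) / 4) v /
      (m * Real.sqrt (dsc (1, 1, ((D : ℤ) + 1) / 4)))) * nu m (1, 1, ((D : ℤ) + 1) / 4) v) /
      Real.sqrt (val (1, 1, ((D : ℤ) + 1) / 4) v) = ∑ m ∈ S, c m *
        (Vk (val (1, 1, ((D : ℤ) + 1) / 4) v / (m * Real.sqrt D)) *
        nu m (1, 1, ((D : ℤ) + 1) / 4) v / Real.sqrt (val (1, 1, ((D : ℤ) + 1) / 4) v)) := by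
    intro v
    rw [h1, Finset.sum_div]
    refine Finset.sum_congr rfl fun m _ => ?_
    ring
  unfold Zc
  rw [tsum_congr h2, Summable.tsum_finsetSum]
  · refine Finset.sum_congr rfl fun m hm => ?_
    rw [tsum_mul_left, hPZ1 D m hD3 hD (hS m hm)]
  · intro m hm
    exact (summ hVK hVGR D m hD (Nat.pos_of_ne_zero (hS m hm).ne_zero)).mul_left _

/-! ### The error -/

theorem zf_ct (hBAV : T_BAV) : ∃ C : ℝ, 0 < C ∧ ∀ (m j D : ℕ), 1 ≤ m → 1 ≤ D →
    |zf m (1 + 2 * j) D - ct m D| ≤ C * ((m : ℝ) + D) ^ 3 * Real.exp (-(Real.sqrt D / m)) := by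
  obtain ⟨C, hC, h⟩ := hBAV
  refine ⟨C, hC, fun m j D hm hD => ?_⟩
  have hm1 : (1 : ℝ) ≤ m := by exact_mod_cast hm
  have hD1 : (1 : ℝ) ≤ D := by exact_mod_cast hD
  have h1 := h m D ((1 + 2 * (j : ℝ)) / (2 * m)) 1 hm1 hD1 le_rfl
  simp only [Finset.range_one, Finset.sum_singleton, Nat.cast_one, Nat.cast_zero,
    add_zero, mul_one, div_one, one_mul] at h1
  rwa [mul_div_cancel₀ _ (by positivity : (2 * (m : ℝ)) ≠ 0)] at h1

theorem lim (K c : ℝ) (hc : 0 < c) : ∃ Y₀ : ℝ, ∀ Y : ℝ, Y₀ ≤ Y →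
    K * Y ^ 18 * Real.exp (-(c * Y)) ≤ 1 := by
  have h1 := (tendsto_rpow_mul_exp_neg_mul_atTop_nhds_zero 18 c hc).const_mul K
  rw [mul_zero] at h1
  obtain ⟨Y₀, hY₀⟩ := eventually_atTop.1 (h1.eventually (eventually_le_nhds
    (show (0 : ℝ) < 1 by norm_num)))
  refine ⟨Y₀, fun Y hY => ?_⟩
  have := hY₀ Y hY
  rw [show (18 : ℝ) = ((18 : ℕ) : ℝ) by norm_num, Real.rpow_natCast] at this
  rw [mul_assoc, ← neg_mul]
  exact this

theorem pf_PZ2 (hPZ1 : T_PZ1) (hBAV : T_BAV) (hVK : T_VK) (hVGR : T_VGR) : T_PZ2 := by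
  intro P N θ hN1 hN2 hN hθ0 hθ1 η hη
  obtain ⟨K, hK, hCD⟩ := cd_bd P N
  obtain ⟨C, hC, hz⟩ := zf_ct hBAV
  have hNr : (1 : ℝ) ≤ N := by exact_mod_cast hN1
  set c : ℝ := Real.sqrt η / N with hc
  have hc0 : 0 < c := div_pos (Real.sqrt_pos.2 hη) (by linarith)
  obtain ⟨Y₀, hY₀⟩ := lim ((N : ℝ) ^ 2 * K * C * (N + 1) ^ 3) c hc0
  refine ⟨max (max 2 (4 / η)) (max Y₀ 1 ^ 4), fun X hX D hD1 hD2 hD4 hDs => ?_⟩
  have hX2 : 2 ≤ X := ((le_max_left _ _).trans (le_max_left _ _)).trans hX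
  have hX3 : 4 / η ≤ X := ((le_max_right _ _).trans (le_max_left _ _)).trans hX
  have hX4 : max Y₀ 1 ^ 4 ≤ X := (le_max_right _ _).trans hX
  have hX0 : 0 < X := by linarith
  have hD3 : 3 < D := by
    have h1 : 4 ≤ η * X := by
      rw [div_le_iff₀ hη] at hX3
      linarith
    have h2 : (4 : ℝ) ≤ D := h1.trans hD1
    have h3 : 4 ≤ D := by exact_mod_cast h2
    omega
  set Y : ℝ := X ^ (1 / 4 : ℝ) with hY
  have hYpos : 0 < Y := Real.rpow_pos_of_pos hX0 _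
  have hY4 : Y ^ 4 = X := by
    rw [hY, ← Real.rpow_natCast, ← Real.rpow_mul hX0.le]
    norm_num
  have hYm : max Y₀ 1 ≤ Y := by
    by_contra h
    push Not at h
    have := pow_lt_pow_left₀ h hYpos.le (n := 4) (by norm_num)
    rw [hY4] at this
    linarith
  have hY0 : Y₀ ≤ Y := (le_max_left _ _).trans hYm
  have hY1 : 1 ≤ Y := (le_max_right _ _).trans hYm
  set M : ℝ := X ^ θ with hM
  have hM1 : 1 < M := Real.one_lt_rpow (by linarith) hθ0
  have hMY : M ≤ Y := Real.rpow_le_rpow_of_exponent_le (by linarith) hθ1.le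
  have hSsq : ∀ m ∈ SD M N, Squarefree m := fun m hm => (Finset.mem_filter.1 hm).2.1
  rw [zc_eq hPZ1 hVK hVGR _ _ hSsq D hD3 hD4, ← main_alg P M N D hN hD4, ← Finset.sum_sub_distrib]
  have hDr : (0 : ℝ) < D := by exact_mod_cast (by omega : 0 < D)
  have hterm : ∀ m ∈ SD M N, |CD P M N D m * ((1 / Real.sqrt m) *
      ∑ j ∈ (Finset.range m).filter
        (fun j : ℕ => (m : ℤ) ∣ (j : ℤ) ^ 2 + j + ((D : ℤ) + 1) / 4), zf m (1 + 2 * j) D) -
      CD P M N D m * (1 / Real.sqrt m * ((nrt m 1 1 (((D : ℤ) + 1) / 4) : ℝ) * ct m D))| ≤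
      K * (N * Y * (C * ((N + 1) * Y ^ 4) ^ 3 * Real.exp (-(c * Y)))) := by
    intro m hm
    have hm0 := hm
    rw [SD, Finset.mem_filter, Finset.mem_Icc] at hm
    obtain ⟨⟨h1, h2⟩, _, _⟩ := hm
    have hmr : (1 : ℝ) ≤ m := by exact_mod_cast h1
    have hmN : (m : ℝ) ≤ N * Y := by
      have h3 : (m : ℝ) ≤ N * (⌊M⌋₊ : ℝ) := by exact_mod_cast h2
      exact h3.trans (mul_le_mul_of_nonneg_left ((Nat.floor_le (by linarith)).trans hMY)
        (by linarith))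
    have hf : (Finset.range m).filter
        (fun j : ℕ => (m : ℤ) ∣ (j : ℤ) ^ 2 + j + ((D : ℤ) + 1) / 4) =
        (Finset.range m).filter
        (fun j : ℕ => (m : ℤ) ∣ 1 * (j : ℤ) ^ 2 + 1 * j + ((D : ℤ) + 1) / 4) := by
      simp only [one_mul]
    rw [← mul_sub, ← mul_sub, abs_mul, abs_mul]
    have hct : (nrt m 1 1 (((D : ℤ) + 1) / 4) : ℝ) * ct m D =
        ∑ j ∈ (Finset.range m).filter
        (fun j : ℕ => (m : ℤ) ∣ (j : ℤ) ^ 2 + j + ((D : ℤ) + 1) / 4), ct m D := by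
      rw [Finset.sum_const, nsmul_eq_mul, hf]
      rfl
    rw [hct, ← Finset.sum_sub_distrib]
    refine mul_le_mul (hCD M hM1 D m hm0) ?_ (by positivity) hK.le
    have h4 : |1 / Real.sqrt (m : ℝ)| ≤ 1 := by
      rw [abs_of_nonneg (by positivity)]
      exact div_le_one_of_le₀ (Real.one_le_sqrt.2 hmr) (Real.sqrt_nonneg _)
    have h5 : Real.exp (-(Real.sqrt D / m)) ≤ Real.exp (-(c * Y)) := by
      refine Real.exp_le_exp.2 (neg_le_neg ?_)
      have h6 : Real.sqrt η * Y ^ 2 ≤ Real.sqrt D := by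
        have h7 : Real.sqrt η * Y ^ 2 = Real.sqrt (η * X) := by
          rw [Real.sqrt_mul hη.le, ← hY4, show Y ^ 4 = (Y ^ 2) ^ 2 by ring,
            Real.sqrt_sq (by positivity)]
        rw [h7]
        exact Real.sqrt_le_sqrt hD1
      rw [hc, le_div_iff₀ (by linarith), div_mul_eq_mul_div, div_mul_eq_mul_div,
        div_le_iff₀ (by linarith)]
      calc Real.sqrt η * Y * m ≤ Real.sqrt η * Y * (N * Y) := by gcongr
        _ = Real.sqrt η * Y ^ 2 * N := by ring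
        _ ≤ Real.sqrt D * N := by gcongr
    have h6 : ∀ j : ℕ, |zf m (1 + 2 * j) D - ct m D| ≤
        C * ((N + 1) * Y ^ 4) ^ 3 * Real.exp (-(c * Y)) := by
      intro j
      refine (hz m j D h1 (by omega)).trans ?_
      have h7 : (m : ℝ) + D ≤ (N + 1) * Y ^ 4 := by
        have h8 : Y ≤ Y ^ 4 := le_self_pow₀ hY1 (by norm_num)
        have h9 : (N : ℝ) * Y ≤ N * Y ^ 4 := by gcongr
        rw [hY4] at h9 ⊢
        linarith
      gcongr
    set T : Finset ℕ := (Finset.range m).filter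
        (fun j : ℕ => (m : ℤ) ∣ (j : ℤ) ^ 2 + j + ((D : ℤ) + 1) / 4) with hT
    have hTm : (T.card : ℝ) ≤ m := by
      exact_mod_cast (Finset.card_filter_le _ _).trans (Finset.card_range m).le
    have h7 : |∑ j ∈ T, (zf m (1 + 2 * j) D - ct m D)| ≤
        T.card * (C * ((N + 1) * Y ^ 4) ^ 3 * Real.exp (-(c * Y))) := by
      rw [← nsmul_eq_mul, ← Finset.sum_const]
      exact (Finset.abs_sum_le_sum_abs _ _).trans (Finset.sum_le_sum fun j _ => h6 j)
    calc |1 / Real.sqrt (m : ℝ)| * |∑ j ∈ T, (zf m (1 + 2 * j) D - ct m D)|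
        ≤ 1 * (T.card * (C * ((N + 1) * Y ^ 4) ^ 3 * Real.exp (-(c * Y)))) :=
          mul_le_mul h4 h7 (abs_nonneg _) (by norm_num)
      _ = T.card * (C * ((N + 1) * Y ^ 4) ^ 3 * Real.exp (-(c * Y))) := one_mul _
      _ ≤ N * Y * (C * ((N + 1) * Y ^ 4) ^ 3 * Real.exp (-(c * Y))) :=
        mul_le_mul_of_nonneg_right (hTm.trans hmN) (by positivity)
  refine (Finset.abs_sum_le_sum_abs _ _).trans ((Finset.sum_le_sum hterm).trans ?_)
  rw [Finset.sum_const, nsmul_eq_mul]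
  have hcard : ((SD M N).card : ℝ) ≤ N * Y := by
    have h3 : (SD M N).card ≤ N * ⌊M⌋₊ := by
      rw [SD]
      exact (Finset.card_filter_le _ _).trans (by rw [Nat.card_Icc]; omega)
    have h4 : ((SD M N).card : ℝ) ≤ N * (⌊M⌋₊ : ℝ) := by exact_mod_cast h3
    exact h4.trans (mul_le_mul_of_nonneg_left ((Nat.floor_le (by linarith)).trans hMY)
      (by linarith))
  have hfin := hY₀ Y hY0
  have hXi : X ^ (-1 : ℝ) = 1 / Y ^ 4 := by
    rw [Real.rpow_neg_one, ← hY4, one_div]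
  rw [hXi, le_div_iff₀ (by positivity)]
  calc ((SD M N).card : ℝ) * (K * (N * Y * (C * ((N + 1) * Y ^ 4) ^ 3 *
      Real.exp (-(c * Y))))) * Y ^ 4
      ≤ (N * Y) * (K * (N * Y * (C * ((N + 1) * Y ^ 4) ^ 3 * Real.exp (-(c * Y))))) * Y ^ 4 := by
        gcongr
    _ = (N : ℝ) ^ 2 * K * C * (N + 1) ^ 3 * Y ^ 18 * Real.exp (-(c * Y)) := by ring
    _ ≤ 1 := hfin

end Pool.Agent.H51.CN
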