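import Pool.Agent.H31.CN.T5

/-!
# The final theorem, from the smooth one
-/

set_option autoImplicit false

open MeasureTheory Set Filter NumberField
open scoped Real nonZeroDivisors

namespace Pool.Agent.H51.CN

open Pool.Agent.H31.CN

/-- a bump function -/
theorem bump (η : ℝ) (h0 : 0 < η) (h1 : η < 1 / 4) : ∃ G : ℝ → ℝ, ContDiff ℝ (⊤ : ℕ∞) G ∧
    (∀ u, u ∉ Icc η 1 → G u = 0) ∧ (∀ u, 0 ≤ G u) ∧ (∀ u, G u ≤ 1) ∧
    1 - 2 * η ≤ ∫ u in Ioi (0 : ℝ), G u := by
  let f : ContDiffBump ((1 + η) / 2 : ℝ) :=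
    { rIn := (1 - 2 * η) / 2
      rOut := (1 - η) / 2
      rIn_pos := by linarith
      rIn_lt_rOut := by linarith }
  have hz : ∀ u, u ∉ Icc η 1 → f u = 0 := by
    intro u hu
    refine f.zero_of_le_dist ?_
    change (1 - η) / 2 ≤ dist u ((1 + η) / 2)
    rw [Real.dist_eq, le_abs]
    rw [Set.mem_Icc, not_and_or, not_le, not_le] at hu
    rcases hu with hu | hu
    · right; linarith
    · left; linarith
  have hi : Integrable (fun u => f u) := by
    refine f.continuous.integrable_of_hasCompactSupport f.hasCompactSupport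
  refine ⟨fun u => f u, f.contDiff, hz, fun u => f.nonneg, fun u => f.le_one, ?_⟩
  have h2 : ∫ u in Icc (3 * η / 2) (1 - η / 2), (1 : ℝ) = 1 - 2 * η := by
    rw [setIntegral_const, smul_eq_mul, mul_one, Real.volume_real_Icc_of_le (by linarith)]
    ring
  rw [← h2]
  refine (setIntegral_mono_on (integrableOn_const (by simp) (by simp)) hi.integrableOn
    measurableSet_Icc fun u hu => ?_).trans
    (setIntegral_mono_set hi.integrableOn (ae_of_all _ fun u => f.nonneg) ?_)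
  · rw [f.one_of_mem_closedBall]
    rw [Metric.mem_closedBall, Real.dist_eq, abs_le]
    change -((1 - 2 * η) / 2) ≤ _ ∧ _ ≤ (1 - 2 * η) / 2
    constructor
    · linarith [hu.1]
    · linarith [hu.2]
  · refine LE.le.eventuallyLE fun u hu => ?_
    have := hu.1
    exact Set.mem_Ioi.2 (by linarith)

theorem prp_nonneg (K : Type) [Field K] [NumberField K] : 0 ≤ prp K := by
  unfold prp
  positivity

theorem pf_FIN (hSMO : T_SMO) (hCHS : T_CHS) : T_FIN := by
  intro ε hε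
  by_cases hk : 19 / 27 - ε ≤ 0
  · refine ⟨0, fun X _ K _ _ _ => ?_⟩
    exact (mul_nonpos_of_nonpos_of_nonneg hk (Nat.cast_nonneg _)).trans
      (Finset.sum_nonneg fun D _ => prp_nonneg _)
  push Not at hk
  obtain ⟨G, h1, h2, h3, h4, h5⟩ := bump (ε / 16) (by linarith) (by linarith)
  obtain ⟨X₀, hX₀⟩ := hSMO G (ε / 16) (by linarith) h1 h2 h3 (by linarith) (ε / 4) (by linarith)
  obtain ⟨C, hC, hfam⟩ := hCHS.2
  set c : ℝ := 2 / π ^ 2 with hc
  have hc0 : 0 < c := by positivity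
  set M : ℝ := C / (ε / 4 * c) with hM
  have hM0 : 0 < M := by positivity
  refine ⟨max X₀ (max 1 (M ^ 4)), fun X hX K _ _ hK => ?_⟩
  have hX1 : X₀ ≤ X := (le_max_left _ _).trans hX
  have hX2 : 1 ≤ X := ((le_max_left _ _).trans (le_max_right _ _)).trans hX
  have hX3 : M ^ 4 ≤ X := ((le_max_right _ _).trans (le_max_right _ _)).trans hX
  have hX0 : 0 < X := by linarith
  have h6 := hX₀ X hX1 K hK
  have h7 : ∑ D ∈ fam X, G (D / X) * prp (K D) ≤ ∑ D ∈ fam X, prp (K D) :=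
    Finset.sum_le_sum fun D _ => mul_le_of_le_one_left (prp_nonneg _) (h4 _)
  have h8 : C * X ^ (3 / 4 : ℝ) ≤ ε / 4 * c * X := by
    have h9 : M ≤ X ^ (1 / 4 : ℝ) := by
      have h10 : (M ^ 4) ^ (1 / 4 : ℝ) = M := by
        rw [← Real.rpow_natCast, ← Real.rpow_mul hM0.le]
        norm_num
      rw [← h10]
      exact Real.rpow_le_rpow (by positivity) hX3 (by norm_num)
    have h11 : X ^ (3 / 4 : ℝ) * X ^ (1 / 4 : ℝ) = X := by
      rw [← Real.rpow_add hX0]
      norm_num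
    have h12 : C = M * (ε / 4 * c) := by
      rw [hM]
      field_simp
    have h13 : 0 < X ^ (3 / 4 : ℝ) := Real.rpow_pos_of_pos hX0 _
    calc C * X ^ (3 / 4 : ℝ) = (ε / 4 * c) * (X ^ (3 / 4 : ℝ) * M) := by rw [h12]; ring
      _ ≤ (ε / 4 * c) * (X ^ (3 / 4 : ℝ) * X ^ (1 / 4 : ℝ)) := by gcongr
      _ = ε / 4 * c * X := by rw [h11]
  have h14 : ((fam X).card : ℝ) ≤ c * X * (1 + ε / 4) := by
    have := (abs_le.1 (hfam X hX2)).2
    linarith
  have h15 : (19 / 27 - ε / 4) * (X * c * (1 - ε / 8)) ≤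
      (19 / 27 - ε / 4) * (X * c * ∫ u in Ioi (0 : ℝ), G u) := by
    refine mul_le_mul_of_nonneg_left ?_ (by linarith)
    refine mul_le_mul_of_nonneg_left ?_ (by positivity)
    linarith
  have h16 : (19 / 27 - ε) * ((fam X).card : ℝ) ≤ (19 / 27 - ε) * (c * X * (1 + ε / 4)) :=
    mul_le_mul_of_nonneg_left h14 hk.le
  have h17 : (19 / 27 - ε) * (c * X * (1 + ε / 4)) ≤ (19 / 27 - ε / 4) * (X * c * (1 - ε / 8)) := by
    have h18 : 0 < c * X := by positivity
    have h19 : (19 / 27 - ε) * (1 + ε / 4) ≤ (19 / 27 - ε / 4) * (1 - ε / 8) := by nlinarith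
    nlinarith
  linarith

end Pool.Agent.H51.CN
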