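import Pool.Agent.H31.CN.T1

/-!
# The weights of products of Hecke operators
-/

set_option autoImplicit false

open MeasureTheory Set Filter
open scoped Real Matrix MatrixGroups

namespace Pool.Agent.H51.CN

open Pool.Agent.H31.CN

/-- the starting weight -/
noncomputable def w0 (m₁ : ℕ) (h : ℝ → ℝ) : QF → ℕ → ℝ :=
  fun R e => if e = 0 then 0 else h ((e : ℝ) ^ 2 * R.1) *
    ((∏ p ∈ m₁.primeFactors, N1 p R.1.toNat R.2.1 R.2.2 e : ℕ) : ℝ)

/-- the local factor -/
def tm (m₁ : ℕ) (l : List ℕ) (q A : ℕ) (B C : ℤ) (e : ℕ) : ℕ :=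
  if q ∣ m₁ ∧ q ∈ l then N2 q A B C e else N1 q A B C e

/-- the factor at the new prime -/
def gf (m₁ p A : ℕ) (B C : ℤ) (e : ℕ) : ℕ := if p ∣ m₁ then N1 p A B C e else 1

theorem prod_split (m₁ : ℕ) (hm : m₁ ≠ 0) (l : List ℕ) (p : ℕ) (hp : p.Prime) (hpl : p ∉ l)
    (A : ℕ) (B C : ℤ) (e : ℕ) :
    ∏ q ∈ m₁.primeFactors ∪ l.toFinset, tm m₁ l q A B C e =
      gf m₁ p A B C e * ∏ q ∈ (m₁.primeFactors ∪ l.toFinset).erase p, tm m₁ l q A B C e := by
  unfold gf
  by_cases h : p ∣ m₁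
  · rw [if_pos h, ← Finset.mul_prod_erase (m₁.primeFactors ∪ l.toFinset) _ (a := p)
      (Finset.mem_union_left _ (Nat.mem_primeFactors.2 ⟨hp, h, hm⟩))]
    congr 1
    unfold tm
    rw [if_neg (fun h1 => hpl h1.2)]
  · rw [if_neg h, one_mul, Finset.erase_eq_of_notMem]
    rw [Finset.mem_union, List.mem_toFinset, Nat.mem_primeFactors]
    rintro (h1 | h1)
    · exact h h1.2.1
    · exact hpl h1

theorem prod_split' (m₁ : ℕ) (l : List ℕ) (p : ℕ) (A : ℕ) (B C : ℤ) (e : ℕ) :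
    ∏ q ∈ m₁.primeFactors ∪ (l ++ [p]).toFinset, tm m₁ (l ++ [p]) q A B C e =
      (if p ∣ m₁ then N2 p A B C e else N1 p A B C e) *
        ∏ q ∈ (m₁.primeFactors ∪ l.toFinset).erase p, tm m₁ l q A B C e := by
  have h1 : p ∈ m₁.primeFactors ∪ (l ++ [p]).toFinset :=
    Finset.mem_union_right _ (List.mem_toFinset.2 (by simp))
  rw [← Finset.mul_prod_erase _ _ h1]
  congr 1
  · unfold tm
    simp
  · refine Finset.prod_congr ?_ fun q hq => ?_
    · ext q
      simp only [Finset.mem_erase, Finset.mem_union, List.mem_toFinset, List.mem_append,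
        List.mem_singleton]
      tauto
    · have h2 : q ≠ p := (Finset.mem_erase.1 hq).1
      unfold tm
      simp [h2]

theorem main (hWC1 : T_WC1) (hWC2 : T_WC2) (Δ m₁ : ℕ) (h : ℝ → ℝ) (hm₁ : m₁ ≠ 0)
    (l : List ℕ) (hl : l.Nodup) (hlp : ∀ p ∈ l, p.Prime) (Q : QF) (hQ : Q ∈ FD Δ) (e : ℕ)
    (he : 1 ≤ e) :
    l.foldl (fun ω p => Wp p ω) (w0 m₁ h) Q e =
      h ((e : ℝ) ^ 2 * Q.1 / (l.prod : ℕ)) *
        ((∏ q ∈ m₁.primeFactors ∪ l.toFinset, tm m₁ l q Q.1.toNat Q.2.1 Q.2.2 e : ℕ) : ℝ) := by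
  induction l using List.reverseRecOn generalizing Q e with
  | nil =>
    have he' : e ≠ 0 := by omega
    simp [w0, tm, he']
  | append_singleton l p ih =>
    have hp : p.Prime := hlp p (by simp)
    have hl1 : l.Nodup := (List.nodup_append.1 hl).1
    have hpl : p ∉ l := by
      intro h1
      exact (List.nodup_append.1 hl).2.2 p h1 p (by simp) rfl
    have hlp1 : ∀ q ∈ l, q.Prime := fun q hq => hlp q (by simp [hq])
    have ih' := ih hl1 hlp1
    obtain ⟨a, B, C⟩ := Q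
    obtain ⟨ha, hd⟩ := hQ
    simp only [dsc] at ha hd
    obtain ⟨A, rfl⟩ : ∃ A : ℕ, a = A := ⟨a.toNat, (Int.toNat_of_nonneg ha.le).symm⟩
    have hA : 0 < A := by exact_mod_cast ha
    have hpp : 0 < p := hp.pos
    have hp0 : (p : ℤ) ≠ 0 := by exact_mod_cast hpp.ne'
    have hp0' : (p : ℝ) ≠ 0 := by exact_mod_cast hpp.ne'
    set R := (m₁.primeFactors ∪ l.toFinset).erase p with hR
    have hRp : ∀ q ∈ R, q.Prime ∧ q ≠ p := by
      intro q hq
      rw [hR, Finset.mem_erase, Finset.mem_union, List.mem_toFinset] at hq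
      refine ⟨?_, hq.1⟩
      rcases hq.2 with h1 | h1
      · exact Nat.prime_of_mem_primeFactors h1
      · exact hlp1 q h1
    rw [List.foldl_append, List.foldl_cons, List.foldl_nil]
    rw [prod_split', List.prod_append, List.prod_singleton]
    have hfac : (if p ∣ m₁ then N2 p A B C e else N1 p A B C e) =
        (if p ∣ A then gf m₁ p (A / p) B (p * C) e else 0) +
        (if p ∣ e then ∑ j ∈ (Finset.range p).filter
          (fun j : ℕ => (p : ℤ) ∣ A * (j : ℤ) ^ 2 + B * (j : ℤ) + C),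
          gf m₁ p (p * A) (B + 2 * A * j) ((A * (j : ℤ) ^ 2 + B * (j : ℤ) + C) / p) (e / p)
          else 0) := by
      unfold gf
      by_cases hpm : p ∣ m₁
      · simp only [if_pos hpm]
        exact ((hWC2 p A B C e hp hA).2).symm
      · simp only [if_neg hpm]
        rw [← (hWC2 p A B C e hp hA).1]
        simp [nrt]
    have e1 : p ∣ A → (List.foldl (fun ω p => Wp p ω) (w0 m₁ h) l
        ((A : ℤ) / p, B, p * C) e : ℝ) =
        h ((e : ℝ) ^ 2 * (A : ℤ) / ((l.prod * p : ℕ) : ℝ)) *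
          ((gf m₁ p (A / p) B (p * C) e * ∏ q ∈ R, tm m₁ l q A B C e : ℕ) : ℝ) := by
      rintro ⟨A', rfl⟩
      have hA' : 0 < A' := Nat.pos_of_mul_pos_left hA
      have h1 : (((p * A' : ℕ) : ℤ) / p) = (A' : ℤ) := by
        push_cast
        exact Int.mul_ediv_cancel_left _ hp0
      have h2 : (p * A') / p = A' := Nat.mul_div_cancel_left _ hpp
      rw [h1, h2]
      rw [ih' ((A' : ℤ), B, p * C) ⟨by simpa using hA', by
        simp only [dsc]
        rw [← hd]
        push_cast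
        ring⟩ e he]
      simp only [Int.toNat_natCast]
      rw [prod_split m₁ hm₁ l p hp hpl]
      congr 1
      · congr 1
        push_cast
        field_simp
      · congr 2
        refine Finset.prod_congr rfl fun q hq => ?_
        obtain ⟨h3, h4⟩ := hRp q hq
        obtain ⟨h5, h6⟩ := (hWC1 p q (p * A') B C e hp h3 h4 hA).1 ⟨A', rfl⟩
        rw [h2] at h5 h6
        unfold tm
        rw [h5, h6]
    have e2 : p ∣ e → ∀ j : ℕ, (p : ℤ) ∣ A * (j : ℤ) ^ 2 + B * (j : ℤ) + C →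
        (List.foldl (fun ω p => Wp p ω) (w0 m₁ h) l
        ((p : ℤ) * A, B + 2 * A * j, (A * (j : ℤ) ^ 2 + B * (j : ℤ) + C) / p) (e / p) : ℝ) =
        h ((e : ℝ) ^ 2 * (A : ℤ) / ((l.prod * p : ℕ) : ℝ)) *
          ((gf m₁ p (p * A) (B + 2 * A * j) ((A * (j : ℤ) ^ 2 + B * (j : ℤ) + C) / p) (e / p) *
            ∏ q ∈ R, tm m₁ l q A B C e : ℕ) : ℝ) := by
      intro hpe j hj
      have hWCj := (hWC1 p)
      obtain ⟨e', rfl⟩ := hpe
      have he' : 0 < e' := Nat.pos_of_mul_pos_left (by omega : 0 < p * e')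
      have h2 : (p * e') / p = e' := Nat.mul_div_cancel_left _ hpp
      rw [h2]
      obtain ⟨c, hc⟩ := hj
      have h3 : (A * (j : ℤ) ^ 2 + B * (j : ℤ) + C) / p = c := by
        rw [hc]
        exact Int.mul_ediv_cancel_left _ hp0
      rw [h3]
      rw [ih' ((p : ℤ) * A, B + 2 * A * j, c) ⟨by
        simp only
        positivity, by
        simp only [dsc]
        rw [← hd]
        linear_combination (-4 * (A : ℤ)) * hc⟩ e' he']
      have h4 : ((p : ℤ) * A).toNat = p * A := by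
        rw [← Nat.cast_mul, Int.toNat_natCast]
      simp only [h4]
      rw [prod_split m₁ hm₁ l p hp hpl]
      congr 1
      · congr 1
        push_cast
        field_simp
      · congr 2
        refine Finset.prod_congr rfl fun q hq => ?_
        obtain ⟨h5, h6⟩ := hRp q hq
        obtain ⟨h7, h8⟩ := (hWC1 p q A B C (p * e') hp h5 h6 hA).2 j ⟨e', rfl⟩ ⟨c, hc⟩
        rw [h2, h3] at h7 h8
        unfold tm
        rw [h7, h8]
    have hW : ∀ ω : QF → ℕ → ℝ, Wp p ω ((A : ℤ), B, C) e =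
        (if (p : ℤ) ∣ (A : ℤ) then ω ((A : ℤ) / p, B, p * C) e else 0) +
        (if p ∣ e then ∑ j ∈ (Finset.range p).filter
          (fun j : ℕ => (p : ℤ) ∣ (A : ℤ) * (j : ℤ) ^ 2 + B * (j : ℤ) + C),
          ω (p * (A : ℤ), B + 2 * (A : ℤ) * j, ((A : ℤ) * (j : ℤ) ^ 2 + B * (j : ℤ) + C) / p) (e / p)
          else 0) := fun ω => rfl
    rw [hW]
    simp only [Int.toNat_natCast]
    rw [hfac, add_mul, Nat.cast_add, mul_add]
    congr 1
    · by_cases hpA : p ∣ A
      · rw [if_pos (by exact_mod_cast hpA), if_pos hpA, e1 hpA]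
      · rw [if_neg (by exact_mod_cast hpA), if_neg hpA]
        simp
    · by_cases hpe : p ∣ e
      · rw [if_pos hpe, if_pos hpe, Finset.sum_mul, Nat.cast_sum, Finset.mul_sum]
        refine Finset.sum_congr rfl fun j hj => ?_
        exact e2 hpe j (Finset.mem_filter.1 hj).2
      · rw [if_neg hpe, if_neg hpe]
        simp

theorem pf_WC (hWC1 : T_WC1) (hWC2 : T_WC2) : T_WC := by
  intro Δ m₁ m₂ h _ hm₁ hm₂ Q hQ e he
  have h1 := main hWC1 hWC2 Δ m₁ h hm₁.ne_zero m₂.primeFactorsList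
    ((Nat.squarefree_iff_nodup_primeFactorsList hm₂.ne_zero).1 hm₂)
    (fun p hp => Nat.prime_of_mem_primeFactorsList hp) Q hQ e he
  rw [Nat.prod_primeFactorsList hm₂.ne_zero] at h1
  refine h1.trans ?_
  congr 2
  unfold Nw
  rw [Nat.primeFactors_mul hm₁.ne_zero hm₂.ne_zero]
  refine Finset.prod_congr rfl fun q hq => ?_
  unfold tm
  have hqp : q.Prime := by
    rcases Finset.mem_union.1 hq with h2 | h2
    · exact Nat.prime_of_mem_primeFactors h2
    · exact Nat.prime_of_mem_primeFactorsList (List.mem_toFinset.1 h2)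
  simp only [Nat.mem_primeFactorsList hm₂.ne_zero, hqp, true_and]

end Pool.Agent.H51.CN
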