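import Pool.Agent.H31.CN.T6
import Pool.Agent.H95.CG.Targets

/-!
# The `L`-functions of the non-trivial class group characters are entire
-/

set_option autoImplicit false

open MeasureTheory Set Filter NumberField
open scoped Real nonZeroDivisors

namespace Pool.Agent.H51.CN

open Pool.Agent.H31.CN Pool.Agent.H28.RC Pool.Agent.H37.CA

theorem pf_ENT (hFI : Pool.Agent.H95.CG.T_FI) : T_ENT := by
  intro K _ _ hK ψ hψ F hF
  obtain ⟨c, _, hc⟩ := hFI _ hK
  obtain ⟨L, hL, _⟩ := hc K rfl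
  obtain ⟨h1, h2⟩ := hL ψ hψ
  obtain ⟨h3, h4⟩ := hF
  have h5 : ∀ s : ℂ, 1 < s.re → L ψ s = F s := fun s hs => (h2 s hs).unique (h4 s hs)
  refine ⟨L ψ, h1, h5, ?_⟩
  have ho : IsOpen ({1}ᶜ : Set ℂ) := isOpen_compl_singleton
  have hc1 : IsPreconnected ({1}ᶜ : Set ℂ) :=
    (isConnected_compl_singleton_of_one_lt_rank (by
      rw [Complex.rank_real_complex]
      exact Nat.one_lt_ofNat) 1).isPreconnected
  have hev : L ψ =ᶠ[nhds (2 : ℂ)] F := by
    have h6 : {s : ℂ | 1 < s.re} ∈ nhds (2 : ℂ) :=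
      (isOpen_lt continuous_const Complex.continuous_re).mem_nhds (by norm_num)
    filter_upwards [h6] with s hs using h5 s hs
  have h7 := (h1.differentiableOn.analyticOnNhd ho).eqOn_of_preconnected_of_eventuallyEq
    (h3.analyticOnNhd ho) hc1 (z₀ := 2) (by norm_num) hev
  exact h7 (by norm_num)

end Pool.Agent.H51.CN
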