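import Pool.Agent.H57.CN.Targets2

/-!
BLE: there are no blind sorts.
-/

set_option autoImplicit false
set_option linter.unusedVariables false

namespace Pool.Agent.H51.CN

open Pool.Agent.H68.BP Pool.Agent.H58.SF Pool.Agent.H53.NR
open Pool.Agent.H53.GC (strOn sigOf)
open Pool.Agent.H57.AR (tp ty Ty)
open Pool.Agent.H57.LH (strOn_imp)
open Pool.Agent.H44.FB (Bl)
open Pool.Agent.H72.CH
open Pool.Agent.H57.CN
open Function

theorem pf_BLE : T_BLE := by
  intro V ρ 𝔹 m lv hV hm R hR 𝔻 st β c hL hN σ 𝔸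
  classical
  rw [Set.eq_empty_iff_forall_notMem]
  intro s hs
  obtain ⟨p₀, hp₀⟩ := hs.rlz
  have hb : ∀ (i : NI ρ m R) (z : NA ρ m R i → ℕ), NR 𝔹 lv st (bk β c) i z →
      ∀ q q', ty 𝔻 (z q) = s → z q' = z q := by
    have h1 := strOn_imp (R := NR (R := R) 𝔹 lv st (bk β c)) (P := fun a b => ty 𝔻 a = s → b = a)
    refine h1.1 ?_
    rw [← hN.str]
    intro l z hz i j hi
    exact hs.b l z hz i hi j
  have hlt : m - 1 < m := by omega
  have hfull : ∀ (a : Fin m), a ≤ (⟨m - 1, hlt⟩ : Fin m) := by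
    intro a
    rw [Fin.le_def]
    have := a.2
    simp only
    omega
  -- full flags
  have hfl : ∀ z : Fin R × Fin m → ℕ, (∀ a i, st (z (a, i)) = i) → ∀ q q', ty 𝔻 (z q) = s →
      z q' = z q := by
    intro z hz
    refine hb (Sum.inr (fun _ => ⟨m - 1, hlt⟩, tp 𝔹 (fun a => β (fun i => z (a, i))))) z ?_
    refine ⟨fun a i _ => hz a i, fun a => β (fun i => z (a, i)), fun a => ?_, rfl⟩
    have e1 : bk β c (fun i => z (a, i)) ⟨m - 1, hlt⟩ = β (fun i => z (a, i)) := by
      unfold bk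
      congr 1
      funext i
      rw [if_pos (hfull i)]
    show (m - 1) + 1 ≤ lv _ (bk β c (fun i => z (a, i)) ⟨m - 1, hlt⟩)
    rw [e1, hV.lev.pl.self]
    omega
  by_cases hm2 : 2 ≤ m
  · -- two sorts
    have hz : ∀ (a : Fin R) (i : Fin m), st ((fun q : Fin R × Fin m =>
        if q.2 = st p₀ then p₀ else c q.2) (a, i)) = i := by
      intro a i
      simp only
      split_ifs with h
      · exact h.symm
      · exact hN.cst i
    obtain ⟨i', hi'⟩ : ∃ i' : Fin m, i' ≠ st p₀ := by
      by_cases h : st p₀ = ⟨0, by omega⟩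
      · refine ⟨⟨1, by omega⟩, ?_⟩
        rw [h]
        intro h1
        have := congrArg Fin.val h1
        simp at this
      · exact ⟨⟨0, by omega⟩, Ne.symm h⟩
    have h1 := hfl (fun q : Fin R × Fin m => if q.2 = st p₀ then p₀ else c q.2) hz
      (⟨0, by omega⟩, st p₀) (⟨0, by omega⟩, i') (by
      simp only [if_true]
      exact hp₀)
    simp only [if_true, if_neg hi'] at h1
    have h2 := hN.cst i'
    rw [h1] at h2
    exact hi' h2.symm
  · -- one sort
    have hm1 : m = 1 := by omega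
    subst hm1
    have h1 := hfl (fun q => if q.1.val = 0 then p₀ else p₀ + 1) (fun a i => Subsingleton.elim _ _)
      (⟨0, by omega⟩, 0) (⟨1, by omega⟩, 0) (by
      simp only [if_true]
      exact hp₀)
    simp at h1

end Pool.Agent.H51.CN
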