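import Pool.Agent.H57.CN.Targets

/-!
UNI: universality of the names structure.
-/

set_option autoImplicit false
set_option linter.unusedVariables false

namespace Pool.Agent.H51.CN

open Pool.Agent.H68.BP Pool.Agent.H58.SF Pool.Agent.H53.NR
open Pool.Agent.H53.GC (strOn sigOf)
open Pool.Agent.H57.AR (tp ty Ty)
open Pool.Agent.H57.LH (Hmg tp_iff)
open Pool.Agent.H44.KR (HB Amg Tyi TpOn LcN)
open Pool.Agent.H72.CH
open Pool.Agent.H57.CN
open Function

/-- every symbol has a place -/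
theorem na_nonempty {ρ : Sig} {m R : ℕ} (hm : 1 ≤ m) (hR : 1 ≤ R) (i : NI ρ m R) :
    Nonempty (NA ρ m R i) := by
  rcases i with i | p
  · exact ⟨()⟩
  · exact ⟨(⟨0, hR⟩, ⟨0, hm⟩)⟩

theorem pf_UNI (hEXD : T_EXD) : T_UNI := by
  intro V ρ 𝔹 m lv hV hm R hR 𝔻 st β c hL hN J _ s g hg
  classical
  obtain ⟨v₀⟩ := hV.ne
  -- the map on all tuples
  obtain ⟨g₀, hg₀⟩ : ∃ g₀ : (Fin m → J) → V, ∀ w : Fl s, g₀ w.1 = g w :=
    ⟨fun w => if h : ∀ i, s (w i) = i then g ⟨w, h⟩ else v₀, fun w => dif_pos w.2⟩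
  have hex₀ : ExOn lv s g₀ Set.univ := by
    intro w w' hw hw' _ _ j hj
    have h1 := hg ⟨w, hw⟩ ⟨w', hw'⟩ j hj
    rw [← hg₀ ⟨w, hw⟩, ← hg₀ ⟨w', hw'⟩] at h1
    exact h1
  obtain ⟨g', hex, htp⟩ := hEXD V ρ 𝔹 m lv hV J s g₀ hex₀
  -- the extension
  obtain ⟨y, hyi, -, hy⟩ := hL.ext J ∅ (fun _ => 0) (strOn (NR 𝔹 lv s (dk g')))
    (Set.injOn_empty _) ⟨s, g', hex, rfl⟩ (by
      intro l z hz
      obtain ⟨q⟩ := na_nonempty hm (by omega : 1 ≤ R) ((Finite.equivFin (NI ρ m R)).symm l)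
      exact (hz (Finite.equivFin (NA ρ m R ((Finite.equivFin (NI ρ m R)).symm l)) q)).elim)
  have hNR : ∀ (i : NI ρ m R) (z : NA ρ m R i → J),
      NR 𝔹 lv s (dk g') i z ↔ NR 𝔹 lv st (bk β c) i (fun q => y (z q)) := by
    refine Pool.Agent.H50.PT.strOn_all.1 ?_
    intro l x
    have h1 := congrFun (congrFun hy l) x
    rw [hN.str] at h1
    exact (iff_of_eq h1).symm
  refine ⟨y, hyi, ?_, ?_⟩
  · intro a
    exact (hNR (Sum.inl (s a)) (fun _ => a)).1 rfl
  · refine tp_of_small R (fun l => ?_) (by omega) ?_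
    · have h1 : ρ.ar l ≤ ρ.width := Finset.le_sup (f := ρ.ar) (Finset.mem_univ l)
      omega
    intro z
    have hlt : m - 1 < m := by omega
    have hfull : ∀ (a : Fin m), a ≤ (⟨m - 1, hlt⟩ : Fin m) := by
      intro a
      rw [Fin.le_def]
      have := a.2
      simp only
      omega
    -- the relation for the full flags
    have h1 : NR 𝔹 lv s (dk g') (Sum.inr (fun _ => ⟨m - 1, hlt⟩,
        tp 𝔹 (fun a => g' (fun i => Sum.inl ((z a).1 i)))))
        (fun q : Fin R × Fin m => (z q.1).1 q.2) := by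
      refine ⟨fun a i _ => (z a).2 i, fun a => g' (fun i => Sum.inl ((z a).1 i)), ?_, rfl⟩
      intro a
      have e1 : dk g' (fun i => (z a).1 i) ⟨m - 1, hlt⟩ = g' (fun i => Sum.inl ((z a).1 i)) := by
        unfold dk cp
        congr 1
        funext i
        rw [if_pos (hfull i)]
      show (m - 1) + 1 ≤ lv _ (dk g' (fun i => (z a).1 i) ⟨m - 1, hlt⟩)
      rw [e1, hV.lev.pl.self]
      omega
    obtain ⟨-, x, h2, h3⟩ := (hNR _ _).1 h1
    have h4 : x = fun a => β (fun i => y ((z a).1 i)) := by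
      funext a
      have h5 := h2 a
      have e1 : bk β c (fun i => y ((z a).1 i)) ⟨m - 1, hlt⟩ = β (fun i => y ((z a).1 i)) := by
        unfold bk
        congr 1
        funext i
        rw [if_pos (hfull i)]
      have h6 : (m - 1) + 1 ≤ lv (x a) (bk β c (fun i => y ((z a).1 i)) ⟨m - 1, hlt⟩) := h5
      rw [e1] at h6
      refine hV.lev.eq _ _ (le_antisymm (hV.lev.pl.le _ _) ?_)
      omega
    rw [h4] at h3
    refine h3.trans ?_
    have h7 := tp_comp htp z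
    refine h7.trans ?_
    have h8 : (fun a => g₀ (z a).1) = fun a => g (z a) := funext fun a => hg₀ (z a)
    rw [h8]

end Pool.Agent.H51.CN
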